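import Pool.Agent.Lib.MP_4a8162_co.FB.Main

set_option autoImplicit false

namespace Pool.Agent.Results.MP_4a8162_co.BoundedFlowRoots

open Pool.Agent.Lib.MP_4a8162_co.FB

/-- The number of connected components of the graph with the vertices `V` and the edges in `A`,
where the edge `e` joins the vertices `(p e).1` and `(p e).2`. -/
noncomputable def comps {V E : Type} (p : E → V × V) (A : Set E) : ℕ :=
  Nat.card (Quot fun u v => ∃ e ∈ A, p e = (u, v))

/-- The flow polynomial of the graph with the vertices `V` and the edges `E`, evaluated at `t`: the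
sum over all sets `A` of edges of `(-1) ^ |E \ A| t ^ (|A| + c(A) - |V|)`, where `c(A)` is the number
of components of `(V, A)` (the exponent is never negative). -/
noncomputable def flow {V E : Type} [Fintype V] [Fintype E] (p : E → V × V) (t : ℝ) : ℝ :=
  ∑ A : Finset E, (-1) ^ (Fintype.card E - A.card) *
    t ^ (A.card + comps p (A : Set E) - Fintype.card V)

/-- No edge is a bridge: removing one edge does not change the number of components. -/
def Bridgeless {V E : Type} (p : E → V × V) : Prop :=
  ∀ e : E, comps p {e}ᶜ = comps p Set.univ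

/-- `M` is the cycle matroid of a finite graph: its elements are the edges, the element `e` joins
the vertices `(ends e).1` and `(ends e).2`, and a set is independent when the corresponding columns
of the oriented incidence matrix are linearly independent over the rationals. -/
def Graphic (M : Matroid ℕ) : Prop :=
  M.Finite ∧ ∃ m : ℕ, ∃ ends : ℕ → Fin m × Fin m, ∀ I : Set ℕ,
    M.Indep I ↔ (I ⊆ M.E ∧ LinearIndependent ℚ
      (fun x : I => (Pi.single (ends x).1 (1 : ℚ) - Pi.single (ends x).2 (1 : ℚ) : Fin m → ℚ)))

/-- `M` is cographic: its dual is the cycle matroid of a finite graph. -/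
def Cographic (M : Matroid ℕ) : Prop := Graphic M.dual

/-- There is a number `T` such that the flow polynomial of every finite bridgeless graph (loops and
parallel edges allowed) is positive at all real `t ≥ T`, and the characteristic polynomial of every
loopless cographic matroid is positive at all real `x ≥ T`. -/
theorem result : ∃ T : ℝ,
    (∀ (V E : Type) [Fintype V] [Fintype E] (p : E → V × V), Bridgeless p →
      ∀ t : ℝ, T ≤ t → 0 < flow p t) ∧
    (∀ M : Matroid ℕ, Cographic M → (∀ e ∈ M.E, M.Indep {e}) →
      ∀ E : Finset ℕ, (E : Set ℕ) = M.E → ∀ x : ℝ, T ≤ x →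
      0 < ∑ X ∈ E.powerset, (-1 : ℝ) ^ X.card *
          x ^ (sSup {n : ℕ | ∃ I ⊆ M.E, M.Indep I ∧ I.ncard = n}
               - sSup {n : ℕ | ∃ I ⊆ (X : Set ℕ), M.Indep I ∧ I.ncard = n})) := by
  classical
  obtain ⟨T1, hT1, h1⟩ := flow_pos mnf
  obtain ⟨T2, hT2, h2⟩ := char_pos mnf
  refine ⟨max T1 T2, ?_, ?_⟩
  · intro V E _ _ p hp t ht
    have ht1 : T1 ≤ t := (le_max_left _ _).trans ht
    have hc : ∀ A : Finset E, comps p (A : Set E) = cs (gen p A) := fun A => quot_cs p A
    have h3 : 0 < PolD p t Finset.univ ⊥ := by
      refine h1 t ht1 V E p (brl_of_cs p fun e => ?_)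
      rw [← hc, ← hc]
      have h4 := hp e
      have h5 : ((Finset.univ.erase e : Finset E) : Set E) = {e}ᶜ := by
        ext x
        simp
      rw [Finset.coe_univ]
      rw [← h4]
      congr 1
    rw [polD_eq] at h3
    have h4 : (0 : ℝ) < t ^ Fintype.card V := pow_pos (by linarith) _
    have h5 := (pos_iff_pos_of_mul_pos h3).1 h4
    unfold flow
    simp only [hc]
    exact h5
  · intro M hM hl E hE x hx
    obtain ⟨hfin, m, ends, h⟩ := hM
    have hfin' : M.Finite := ⟨hfin.ground_finite⟩
    exact h2 x ((le_max_right _ _).trans hx) m M hfin' ends h hl E hE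

end Pool.Agent.Results.MP_4a8162_co.BoundedFlowRoots
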