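import Pool.Agent.Lib.MP_4a8162_co.Part1
import Pool.Agent.Lib.MP_4a8162_co.DualRep
import Pool.Agent.Lib.MP_4a8162_co.Minor
import Pool.Agent.Lib.MP_4a8162_co.K5
import Pool.Agent.Lib.MP_4a8162_co.ChfDual

set_option autoImplicit false

namespace Pool.Agent.Results.MP_4a8162_co.CographicRoot

open Pool.Agent.Lib.MP_4a8162_co

/-- `M` is the cycle matroid of a finite graph: its elements are the edges, the element `e` joins
the vertices `(ends e).1` and `(ends e).2`, and a set is independent when the corresponding columns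
of the oriented incidence matrix are linearly independent over the rationals. -/
def Graphic (M : Matroid ℕ) : Prop :=
  M.Finite ∧ ∃ m : ℕ, ∃ ends : ℕ → Fin m × Fin m, ∀ I : Set ℕ,
    M.Indep I ↔ (I ⊆ M.E ∧ LinearIndependent ℚ
      (fun x : I => (Pi.single (ends x).1 (1 : ℚ) - Pi.single (ends x).2 (1 : ℚ) : Fin m → ℚ)))

/-- `M` is cographic: its dual is the cycle matroid of a finite graph. -/
def Cographic (M : Matroid ℕ) : Prop := Graphic M.dual

/-- The cographic matroids form a class as in Q1 (over every field): every member is finite and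
representable over every field, the class is closed under minors and relabelling, it misses a
graphic matroid; and it has a loopless member with a real characteristic root greater than
`6.1`. -/
theorem result :
    (∀ (F : Type) [Field F] (M : Matroid ℕ), Cographic M → M.Finite ∧
      ∃ n : ℕ, ∃ v : ℕ → (Fin n → F),
        ∀ I : Set ℕ, M.Indep I ↔ (I ⊆ M.E ∧ LinearIndependent F (fun x : I => v x))) ∧
    (∀ M : Matroid ℕ, Cographic M → ∀ X Y : Set ℕ, Cographic ((M.contract X).delete Y)) ∧
    (∀ M : Matroid ℕ, Cographic M → ∀ (f : ℕ → ℕ) (hf : Set.InjOn f M.E), Cographic (M.map f hf)) ∧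
    (∃ G : Matroid ℕ, Graphic G ∧ ¬ Cographic G) ∧
    (∃ M : Matroid ℕ, Cographic M ∧ (∀ e ∈ M.E, M.Indep {e}) ∧
      ∃ E : Finset ℕ, (E : Set ℕ) = M.E ∧ ∃ x : ℝ, 61 / 10 < x ∧
        (∑ X ∈ E.powerset, (-1 : ℝ) ^ X.card *
          x ^ (sSup {n : ℕ | ∃ I ⊆ M.E, M.Indep I ∧ I.ncard = n}
               - sSup {n : ℕ | ∃ I ⊆ (X : Set ℕ), M.Indep I ∧ I.ncard = n})) = 0) := by
  refine ⟨?_, ?_, ?_, ?_, ?_⟩
  · intro F _ M hM
    obtain ⟨hfin, m, ends, h⟩ := hM
    have hfin' : M.Finite := ⟨hfin.ground_finite⟩
    refine ⟨hfin', ?_⟩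
    have h1 := graphic_rep F hfin ends h
    obtain ⟨n, v, hv⟩ := dual_rep F hfin (fun e => evec F (ends e)) h1
    refine ⟨n, v, ?_⟩
    intro I
    have := hv I
    rw [Matroid.dual_dual] at this
    exact this
  · intro M hM X Y
    have h1 : IsGraphic ((M.dual.delete X).contract Y) :=
      graphic_contract (graphic_delete hM X) Y
    unfold Cographic
    rw [Matroid.dual_contract_delete]
    exact h1
  · intro M hM f hf
    have h1 : IsGraphic (M.dual.map f hf) := graphic_map hM f hf
    unfold Cographic
    rw [Matroid.map_dual]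
    exact h1
  · exact exists_graphic_not_cographic
  · obtain ⟨es, hes⟩ := exists_FP_neg
    obtain ⟨G, hGE, hG, hr⟩ := exists_graphic es
    have hE : ((Finset.range es.length : Finset ℕ) : Set ℕ) = G.dual.E := by
      rw [Matroid.dual_ground, hGE]
      ext i
      simp
    have h0 : chf G.dual (Finset.range es.length) ((61 / 10 : ℚ) : ℝ) < 0 := by
      rw [chf_dual es G hGE hr]
      exact_mod_cast hes
    obtain ⟨y, hy, hy0⟩ := exists_root_of_chf_neg _ hE _ h0
    refine ⟨G.dual, ?_, loopless_of_chf_ne_zero _ hE _ h0.ne, Finset.range es.length, hE, y, ?_, hy0⟩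
    · unfold Cographic
      rw [Matroid.dual_dual]
      exact hG
    · push_cast at hy
      exact hy

end Pool.Agent.Results.MP_4a8162_co.CographicRoot
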