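import Pool.Agent.Lib.MP_4a8162_co.Pert

set_option autoImplicit false

namespace Pool.Agent.Results.MP_4a8162_co.Perturbation

open Pool.Agent.Lib.MP_4a8162_co

/-- Let `C` be a minor-closed class of finite matroids such that every simple member of `C` (with
nonempty ground set) has a cocircuit with at most `d` elements, and let `F` be a field with `q`
elements.  Then the same holds, with `d q^(t(t+3)/2)` in place of `d`, for the class of all
`F`-representable matroids which are obtained from a member of `C` by at most `t` elementary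
lifts and quotients (`Near C t`), and the loopless members of this class have positive
characteristic polynomials on `(d q^(t(t+3)/2), ∞)`. -/
theorem result :
  ∀ (F : Type) [Field F] [Fintype F] (C : Matroid ℕ → Prop) (d : ℕ),
    1 ≤ d →
    (∀ M : Matroid ℕ, C M → M.Finite) →
    (∀ M : Matroid ℕ, C M → ∀ X Y : Set ℕ, C ((M.contract X).delete Y)) →
    (∀ M : Matroid ℕ, C M → M.E.Nonempty → (∀ e ∈ M.E, ∀ f ∈ M.E, M.Indep {e, f}) →
      ∃ D : Set ℕ, M.IsCocircuit D ∧ D.ncard ≤ d) →
    ∀ (t : ℕ) (M : Matroid ℕ), Near C t M →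
      (∃ n : ℕ, ∃ v : ℕ → (Fin n → F),
        ∀ I : Set ℕ, M.Indep I ↔ (I ⊆ M.E ∧ LinearIndependent F (fun x : I => v x))) →
      (M.E.Nonempty → (∀ e ∈ M.E, ∀ f ∈ M.E, M.Indep {e, f}) →
        ∃ D : Set ℕ, M.IsCocircuit D ∧ D.ncard ≤ d * Fintype.card F ^ (t * (t + 3) / 2)) ∧
      ((∀ e ∈ M.E, M.Indep {e}) → ∀ E : Finset ℕ, (E : Set ℕ) = M.E → ∀ x : ℝ,
        d * (Fintype.card F : ℝ) ^ (t * (t + 3) / 2) < x →
        0 < ∑ X ∈ E.powerset, (-1 : ℝ) ^ X.card *
          x ^ (sSup {n : ℕ | ∃ I ⊆ M.E, M.Indep I ∧ I.ncard = n}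
               - sSup {n : ℕ | ∃ I ⊆ (X : Set ℕ), M.Indep I ∧ I.ncard = n})) := by
  intro F _ _ C d hd hfin hmin hco t M hM hrep
  exact near_main F C d hfin hmin hd hco t M hM hrep

end Pool.Agent.Results.MP_4a8162_co.Perturbation
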