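import Pool.Agent.Lib.MP_4a8162_co.RS.Main

set_option autoImplicit false

namespace Pool.Agent.Results.MP_4a8162_co.SumClosure

open Pool.Agent.Lib.MP_4a8162_co

/-- `M` is the cycle matroid of a finite graph: its elements are the edges, the element `e` joins
the vertices `(ends e).1` and `(ends e).2`, and a set is independent when the corresponding columns
of the oriented incidence matrix are linearly independent over the rationals. -/
def Graphic (M : Matroid ℕ) : Prop :=
  M.Finite ∧ ∃ m : ℕ, ∃ ends : ℕ → Fin m × Fin m, ∀ I : Set ℕ,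
    M.Indep I ↔ (I ⊆ M.E ∧ LinearIndependent ℚ
      (fun x : I => (Pi.single (ends x).1 (1 : ℚ) - Pi.single (ends x).2 (1 : ℚ) : Fin m → ℚ)))

/-- `M` is cographic: its dual is the cycle matroid of a finite graph. -/
def Cographic (M : Matroid ℕ) : Prop := Graphic M.dual

/-- `M` has no loops. -/
def NoLoops (M : Matroid ℕ) : Prop := ∀ e ∈ M.E, M.Indep {e}

/-- `M` is simple: it has no loops and no parallel elements. -/
def IsSimple (M : Matroid ℕ) : Prop := ∀ e ∈ M.E, ∀ f ∈ M.E, M.Indep {e, f}

/-- The characteristic polynomial of `M`, whose ground set is `E`, evaluated at `x`. The rank of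
a set is the largest size of an independent subset. -/
noncomputable def charPoly (M : Matroid ℕ) (E : Finset ℕ) (x : ℝ) : ℝ :=
  ∑ X ∈ E.powerset, (-1 : ℝ) ^ X.card *
    x ^ (sSup {n : ℕ | ∃ I ⊆ M.E, M.Indep I ∧ I.ncard = n}
         - sSup {n : ℕ | ∃ I ⊆ (X : Set ℕ), M.Indep I ∧ I.ncard = n})

/-- The matroid `M` is represented over the field `K` by the vectors `v e`, `e ∈ M.E`. -/
def Represents {K : Type} [Field K] {n : ℕ} (v : ℕ → (Fin n → K)) (M : Matroid ℕ) : Prop :=
  ∀ I : Set ℕ, M.Indep I ↔ (I ⊆ M.E ∧ LinearIndependent K (fun x : I => v x))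

/-- `M` is the sum of `M₁` and `M₂` along a full subspace: over some field the three matroids are
represented by the same vectors; the elements of `M` are those that lie in exactly one of `M₁` and
`M₂`; the span of `M₁` meets the span of `M₂` in the span of the common elements; and every nonzero
vector of the span of the common elements is a multiple of the vector of a common element. For
binary matroids with no common element, one common element, or the three elements of a common
triangle this is the 1-, 2- or 3-sum. -/
def IsSum (M M₁ M₂ : Matroid ℕ) : Prop :=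
  ∃ (K : Type) (_ : Field K) (n : ℕ) (v : ℕ → (Fin n → K)),
    Represents v M ∧ Represents v M₁ ∧ Represents v M₂ ∧
    M.E = (M₁.E ∪ M₂.E) \ (M₁.E ∩ M₂.E) ∧
    Submodule.span K (v '' M₁.E) ⊓ Submodule.span K (v '' M₂.E) =
      Submodule.span K (v '' (M₁.E ∩ M₂.E)) ∧
    ∀ y ∈ Submodule.span K (v '' (M₁.E ∩ M₂.E)), y ≠ 0 →
      ∃ t ∈ M₁.E ∩ M₂.E, ∃ r : K, y = r • v t

/-- The smallest class that contains

* every cographic matroid,
* every finite matroid none of whose loopless minors has a real characteristic root greater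
  than `d`,
* every sum along a full subspace of two of its members,
* every minor-closed class of finite matroids in which each simple member with a nonempty ground
  set has a cocircuit with at most `d` elements or belongs to the class being defined. -/
inductive Built (d : ℝ) : Matroid ℕ → Prop
  | cographic (M : Matroid ℕ) : Cographic M → Built d M
  | bounded (M : Matroid ℕ) : M.Finite →
      (∀ X Y : Set ℕ, NoLoops ((M.contract X).delete Y) →
        ∀ E : Finset ℕ, (E : Set ℕ) = ((M.contract X).delete Y).E → ∀ y : ℝ, d < y →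
          charPoly ((M.contract X).delete Y) E y ≠ 0) → Built d M
  | sum (M M₁ M₂ : Matroid ℕ) : Built d M₁ → Built d M₂ → IsSum M M₁ M₂ → Built d M
  | cocircuit (C : Matroid ℕ → Prop) :
      (∀ M : Matroid ℕ, C M → M.Finite) →
      (∀ M : Matroid ℕ, C M → ∀ X Y : Set ℕ, C ((M.contract X).delete Y)) →
      (∀ M : Matroid ℕ, C M → M.E.Nonempty → IsSimple M →
        (¬ ∃ D : Set ℕ, M.IsCocircuit D ∧ (D.ncard : ℝ) ≤ d) → Built d M) →
      ∀ M : Matroid ℕ, C M → Built d M

/-- There is a number `T` such that, for every `d`, every loopless member `M` of the class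
`Built d` has a positive characteristic polynomial at all real `x ≥ T` with `x > d`; so no loopless
member has a real characteristic root greater than the maximum of `T` and `d`. -/
theorem result : ∃ T : ℝ, ∀ (d : ℝ) (M : Matroid ℕ), Built d M → NoLoops M →
    ∀ E : Finset ℕ, (E : Set ℕ) = M.E → ∀ x : ℝ, T ≤ x → d < x → 0 < charPoly M E x := by
  obtain ⟨T, hT0, hT⟩ := GS.pos_cographic
  refine ⟨T, ?_⟩
  intro d M hM hl E hE x hTx hdx
  have hx0 : 0 < x := lt_of_lt_of_le hT0 hTx
  have key : M.Finite ∧ GS.Pos x M := by
    clear hl hE E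
    induction hM with
    | cographic M h => exact ⟨⟨h.1.ground_finite⟩, hT x hTx M h⟩
    | bounded M hf h => exact ⟨hf, GS.pos_bounded hdx h⟩
    | sum M M₁ M₂ _ _ hs ih1 ih2 =>
      refine ⟨?_, GS.Pos.sum hx0 ih1.1 ih2.1 ih1.2 ih2.2 hs⟩
      obtain ⟨K, _, n, v, _, _, _, hME, _⟩ := hs
      refine ⟨?_⟩
      rw [hME]
      exact (ih1.1.ground_finite.union ih2.1.ground_finite).subset Set.sdiff_subset
    | cocircuit C hfin hmin _ M hM ih =>
      refine ⟨hfin M hM, GS.pos_cocircuit hdx C hfin hmin ?_ M hM⟩
      intro N hN hne hs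
      by_cases hD : ∃ D : Set ℕ, N.IsCocircuit D ∧ (D.ncard : ℝ) ≤ d
      · exact Or.inl hD
      · exact Or.inr (ih N hN hne hs hD).2
  have h1 := key.2 ∅ ∅
  rw [Matroid.contract_empty, Matroid.delete_empty] at h1
  exact h1 hl E hE

end Pool.Agent.Results.MP_4a8162_co.SumClosure
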